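import Pool.Agent.H65.CZF.TA
import Pool.Agent.H37.CV.All
import Pool.Agent.H56.CV.EN

/-!
# Hecke's theorem for the characters which are not trivial (module ENA)
-/

set_option autoImplicit false

open NumberField NumberField.InfinitePlace Set Filter Complex
open scoped nonZeroDivisors ENNReal Topology

namespace Pool.Agent.H33.CZF

open Pool.Agent.H37.CV Pool.Agent.H28.RC Pool.Agent.H25.HK Pool.Agent.H81.RC.HE
open Pool.Agent.H20.HKI (eq_off cj cj_diff cj_eq gS_bar gS_conj gS_ne_im dense_im)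
open Pool.Agent.H56.CV (en_gS Gammaℂ_ne cpow_conj_real)
open Pool.Agent.H33.HH (IQ T_NRM NotInv)
open Pool.Agent.H65.CZF (T_ENA EnF)

section Cl

variable {K : Type} [Field K] [NumberField K]

theorem ss_ne {x : K} {I : Ideal (𝓞 K)} {M : FI K} (hI : I ≠ ⊥) (hM : M ≠ 0)
    (h : (I : FI K) * M = FractionalIdeal.spanSingleton (𝓞 K)⁰ x) : x ≠ 0 := by
  rintro rfl
  rw [FractionalIdeal.spanSingleton_zero] at h
  rcases mul_eq_zero.1 h with h1 | h1
  · exact hI (FractionalIdeal.coeIdeal_eq_zero.1 h1)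
  · exact hM h1

/-- two ideals in the same class -/
theorem pri_rel {M : FI K} (hM : M ≠ 0) {I J : Ideal (𝓞 K)} (hI : Pri K M I) (hJ : Pri K M J) :
    ∃ a b : 𝓞 K, a ≠ 0 ∧ b ≠ 0 ∧ Ideal.span {a} * I = Ideal.span {b} * J := by
  obtain ⟨hI0, x, hx⟩ := hI
  obtain ⟨hJ0, y, hy⟩ := hJ
  have hx0 := ss_ne hI0 hM hx
  have hy0 := ss_ne hJ0 hM hy
  obtain ⟨a, b, hb, hab⟩ := IsFractionRing.div_surjective (A := 𝓞 K) (y / x)
  have hb0 : b ≠ 0 := nonZeroDivisors.ne_zero hb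
  have hbK : (algebraMap (𝓞 K) K b) ≠ 0 := by
    rw [Ne, FaithfulSMul.algebraMap_eq_zero_iff]
    exact hb0
  have haK : (algebraMap (𝓞 K) K a) ≠ 0 := by
    intro h
    rw [h, zero_div] at hab
    exact (div_ne_zero hy0 hx0) hab.symm
  have ha0 : a ≠ 0 := by
    rintro rfl
    exact haK (map_zero _)
  refine ⟨a, b, ha0, hb0, ?_⟩
  have h1 : (algebraMap (𝓞 K) K a) * x = (algebraMap (𝓞 K) K b) * y := by
    field_simp at hab
    linear_combination hab
  apply FractionalIdeal.coeIdeal_injective (K := K)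
  beta_reduce
  rw [FractionalIdeal.coeIdeal_mul, FractionalIdeal.coeIdeal_mul,
    FractionalIdeal.coeIdeal_span_singleton, FractionalIdeal.coeIdeal_span_singleton]
  have h2 : FractionalIdeal.spanSingleton (𝓞 K)⁰ (algebraMap (𝓞 K) K a) * (I : FI K) * M =
      FractionalIdeal.spanSingleton (𝓞 K)⁰ (algebraMap (𝓞 K) K b) * (J : FI K) * M := by
    rw [mul_assoc, mul_assoc, hx, hy, FractionalIdeal.spanSingleton_mul_spanSingleton,
      FractionalIdeal.spanSingleton_mul_spanSingleton, h1]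
  exact mul_right_cancel₀ hM h2

theorem psi_span [IsTotallyComplex K] (χ : RCC K) (hf : χ.f = ⊤) {a : 𝓞 K} (ha : a ≠ 0) :
    χ.ψ (Ideal.span {a}) = 1 := by
  have h1 : χ.S = ∅ := by
    rw [Finset.eq_empty_iff_forall_notMem]
    intro v _
    have h3 := IsTotallyComplex.isComplex v.1
    exact (not_isReal_iff_isComplex.2 h3) v.2
  rw [χ.princ a ha (by rw [hf]; trivial), h1, sg_empty]

omit [NumberField K] in
theorem S_empty [IsTotallyComplex K] (χ : RCC K) : χ.S = ∅ := by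
  rw [Finset.eq_empty_iff_forall_notMem]
  intro v _
  have h3 := IsTotallyComplex.isComplex v.1
  exact (not_isReal_iff_isComplex.2 h3) v.2

theorem psi_pri [IsTotallyComplex K] (χ : RCC K) (hf : χ.f = ⊤) {M : FI K} (hM : M ≠ 0)
    {I J : Ideal (𝓞 K)} (hI : Pri K M I) (hJ : Pri K M J) : χ.ψ I = χ.ψ J := by
  obtain ⟨a, b, ha, hb, h⟩ := pri_rel hM hI hJ
  have h1 := congrArg χ.ψ h
  rw [χ.map_mul, χ.map_mul, psi_span χ hf ha, psi_span χ hf hb, one_mul, one_mul] at h1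
  exact h1

/-- the ideal of the constant term -/
theorem pri_z0 (χ : RCC K) (hf : χ.f = ⊤) {M : FI K} (hM : M ≠ 0) :
    Pri K M (idl K M (z0 χ M)) := by
  have h1 := (c_CM K χ M hM).2.2.2.2.2.2.2
  have h2 : z0 χ M ∈ M := by
    have h3 := h1.2
    rw [hf, FractionalIdeal.coeIdeal_top, one_mul] at h3
    exact h3
  have h3 := c_ID K M hM
  refine ⟨?_, z0 χ M, h3.1 _ h2⟩
  rw [Ne, h3.2.2.2.1 _ h2]
  exact h1.1

theorem cf_zero [IsTotallyComplex K] (χ : RCC K) (M : FI K) :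
    cf χ M 0 = χ.ψ (idl K M (z0 χ M)) := by
  unfold cf
  rw [if_pos rfl, S_empty χ, sg_empty, one_mul]

/-- the sum of the constant terms is zero -/
theorem sum_cf [IsTotallyComplex K] (χ : RCC K) (hf : χ.f = ⊤) {J : Ideal (𝓞 K)} (hJ : J ≠ ⊥)
    (hψ : χ.ψ J ≠ 1) {ι : Type} [Fintype ι] (M : ι → FI K) (hM0 : ∀ c, M c ≠ 0)
    (hM1 : ∀ I : Ideal (𝓞 K), I ≠ ⊥ → ∃! c, Pri K (M c) I) : ∑ c, cf χ (M c) 0 = 0 := by
  have hI : ∀ c, ∃ I : Ideal (𝓞 K), Pri K (M c) I ∧ cf χ (M c) 0 = χ.ψ I := fun c =>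
    ⟨_, pri_z0 χ hf (hM0 c), cf_zero χ (M c)⟩
  choose I hI1 hI2 using hI
  have hJI : ∀ c, J * I c ≠ ⊥ := fun c => mul_ne_zero hJ (hI1 c).1
  choose π hπ hπu using fun c => hM1 (J * I c) (hJI c)
  have hinj : Function.Injective π := by
    intro c₁ c₂ h12
    have h1 : Pri K (M (π c₁)) (J * I c₁) := hπ c₁
    have h2 : Pri K (M (π c₁)) (J * I c₂) := by
      rw [h12]
      exact hπ c₂
    obtain ⟨a, b, ha, hb, hab⟩ := pri_rel (hM0 _) h1 h2
    have h3 : Ideal.span {a} * I c₁ = Ideal.span {b} * I c₂ := by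
      have h4 : J * (Ideal.span {a} * I c₁) = J * (Ideal.span {b} * I c₂) := by
        rw [mul_left_comm, hab, mul_left_comm]
      exact mul_left_cancel₀ hJ h4
    obtain ⟨hI0, y, hy⟩ := hI1 c₂
    have haK : (algebraMap (𝓞 K) K a) ≠ 0 := by
      rw [Ne, FaithfulSMul.algebraMap_eq_zero_iff]
      exact ha
    have h5 : Pri K (M c₂) (I c₁) := by
      refine ⟨(hI1 c₁).1, (algebraMap (𝓞 K) K b) / (algebraMap (𝓞 K) K a) * y, ?_⟩
      have h6 := congrArg (fun I : Ideal (𝓞 K) => (I : FI K)) h3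
      simp only [FractionalIdeal.coeIdeal_mul, FractionalIdeal.coeIdeal_span_singleton] at h6
      have h7 : FractionalIdeal.spanSingleton (𝓞 K)⁰ (algebraMap (𝓞 K) K a) ≠ 0 := by
        rw [Ne, FractionalIdeal.spanSingleton_eq_zero_iff]
        exact haK
      apply mul_left_cancel₀ h7
      rw [← mul_assoc, h6, mul_assoc, hy, FractionalIdeal.spanSingleton_mul_spanSingleton,
        FractionalIdeal.spanSingleton_mul_spanSingleton]
      have h8 : (algebraMap (𝓞 K) K a) * ((algebraMap (𝓞 K) K b) / (algebraMap (𝓞 K) K a) * y) =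
          (algebraMap (𝓞 K) K b) * y := by
        field_simp
      rw [h8]
    exact (hM1 (I c₁) (hI1 c₁).1).unique (hI1 c₁) h5
  have hbij : Function.Bijective π := Finite.injective_iff_bijective.1 hinj
  have h1 : ∑ c, χ.ψ (I (π c)) = ∑ c, χ.ψ (I c) := hbij.sum_comp fun c => χ.ψ (I c)
  have h2 : ∀ c, χ.ψ (I (π c)) = χ.ψ J * χ.ψ (I c) := fun c => by
    rw [psi_pri χ hf (hM0 _) (hI1 (π c)) (hπ c), χ.map_mul]
  rw [Finset.sum_congr rfl fun c _ => h2 c, ← Finset.mul_sum] at h1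
  rw [Finset.sum_congr rfl fun c _ => hI2 c]
  have h3 : (χ.ψ J - 1) * ∑ c, χ.ψ (I c) = 0 := by
    linear_combination h1
  rcases mul_eq_zero.1 h3 with h4 | h4
  · exact absurd (sub_eq_zero.1 h4) hψ
  · exact h4

end Cl

section

variable {K : Type} [Field K] [NumberField K]

open scoped Classical in
/-- the entire completed function of a nontrivial unramified character -/
theorem ena_entire [IsTotallyComplex K] (χ : RCC K) (hf : χ.f = ⊤) {J : Ideal (𝓞 K)}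
    (hJ : J ≠ ⊥) (hψ : χ.ψ J ≠ 1) : ∃ L : ℂ → ℂ, Differentiable ℂ L ∧
      ∀ s : ℂ, 1 < s.re → L s = cK K * gS χ s * Lc χ s := by
  obtain ⟨W, hW⟩ := c_CW K χ
  obtain ⟨ι, hι, M, hM0, hM1, hM2⟩ := c_CS K χ.f χ.f_ne
  choose P hPf hPg hPk hPε hPf0 hPg0 using fun c => T_WPc_proved K χ W (M c) hW (hM0 c)
  have hNp : ∀ c, 0 < (FractionalIdeal.absNorm (M c) : ℝ) := fun c =>
    (T_DU_proved K (M c) (hM0 c)).2.2.2.1
  have hLK := LK_eq c_ME c_EP χ M hM0 hM1 hNp P hPk hPf hPf0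
  obtain ⟨N, hN⟩ : ∃ N : ι → ℝ, N = fun c => (FractionalIdeal.absNorm (M c) : ℝ) := ⟨_, rfl⟩
  rw [← hN] at hLK
  have hN0 : ∀ c, 0 < N c := fun c => by rw [hN]; exact hNp c
  have hf0 : ((χ.f : Ideal (𝓞 K)) : FI K) ≠ 0 := by
    rw [Ne, FractionalIdeal.coeIdeal_eq_zero]
    exact χ.f_ne
  have hfM : ∀ c, (χ.f : FI K) * M c ≠ 0 := fun c => mul_ne_zero hf0 (hM0 c)
  have hM' : ∀ c, du' χ (M c) ≠ 0 := fun c => (T_DU_proved K _ (hfM c)).1
  -- the constant terms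
  have hA0 : ∑ c, (P c).f₀ = 0 := by
    have h1 : ∀ c, (P c).f₀ = cf χ (M c) 0 * ((MeasureTheory.volume.real (Fd K) : ℝ) : ℂ) :=
      fun c => by
      rw [hPf0]
      unfold k0
      rw [if_pos (S_empty χ)]
    rw [Finset.sum_congr rfl fun c _ => h1 c, ← Finset.sum_mul,
      sum_cf χ hf hJ hψ M hM0 hM1, zero_mul]
  have hψ' : χ.bar.ψ J ≠ 1 := by
    intro h
    apply hψ
    have h2 : (starRingEnd ℂ) (χ.ψ J) = 1 := h
    have h3 := congrArg (starRingEnd ℂ) h2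
    rwa [Complex.conj_conj, map_one] at h3
  have hB0 : ∑ c, (N c : ℂ) * ((P c).ε * (P c).g₀) = 0 := by
    have h1 : ∀ c, (N c : ℂ) * ((P c).ε * (P c).g₀) = cf χ.bar (du' χ (M c)) 0 *
        (((Real.sqrt |(discr K : ℝ)|)⁻¹ : ℝ) * W *
          ((MeasureTheory.volume.real (Fd K) : ℝ) : ℂ)) := fun c => by
      rw [hPg0, hPε]
      unfold k0 cv
      rw [if_pos (S_empty χ.bar), S_empty χ, Finset.card_empty, pow_zero, hf,
        FractionalIdeal.coeIdeal_top, one_mul]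
      have h2 : (N c : ℂ) = ((FractionalIdeal.absNorm (M c) : ℝ) : ℂ) := by rw [hN]
      rw [h2]
      have h3 : ((FractionalIdeal.absNorm (M c) : ℝ) : ℂ) ≠ 0 := by
        exact_mod_cast (hNp c).ne'
      have h4 : ((Real.sqrt |(discr K : ℝ)| : ℝ) : ℂ) ≠ 0 := by
        have h5 : 0 < |(discr K : ℝ)| := abs_pos.2 (by exact_mod_cast discr_ne_zero K)
        exact_mod_cast (Real.sqrt_pos.2 h5).ne'
      rw [ofReal_inv, ofReal_inv, ofReal_mul]
      field_simp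
    rw [Finset.sum_congr rfl fun c _ => h1 c, ← Finset.sum_mul,
      sum_cf χ.bar (show χ.bar.f = ⊤ from hf) hJ hψ' (fun c => du' χ (M c)) hM' hM2, zero_mul]
  set A : ℂ → ℂ := fun s => ∑ c, ((N c : ℝ) : ℂ) ^ s * (P c).f₀ with hA
  set B : ℂ → ℂ := fun s => ∑ c, ((N c : ℝ) : ℂ) ^ s * ((P c).ε * (P c).g₀) with hB
  have hpd : ∀ c, Differentiable ℂ (fun s : ℂ => ((N c : ℝ) : ℂ) ^ s) := fun c s =>
    (differentiableAt_id).const_cpow (Or.inl (by exact_mod_cast (hN0 c).ne'))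
  have hAd : Differentiable ℂ A := by
    rw [hA]
    exact Differentiable.fun_sum fun c _ => (hpd c).mul_const _
  have hBd : Differentiable ℂ B := by
    rw [hB]
    exact Differentiable.fun_sum fun c _ => (hpd c).mul_const _
  have hA1 : A 0 = 0 := by
    rw [hA]
    simp only [cpow_zero, one_mul]
    exact hA0
  have hB1 : B 1 = 0 := by
    rw [hB]
    simp only [cpow_one]
    exact hB0
  have hsl : ∀ (g : ℂ → ℂ) (c : ℂ), Differentiable ℂ g → Differentiable ℂ (dslope g c) := by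
    intro g c hg
    rw [← differentiableOn_univ] at hg ⊢
    exact (Complex.differentiableOn_dslope univ_mem).2 hg
  set Λ' : ℂ → ℂ := fun s => ∑ c, ((N c : ℝ) : ℂ) ^ s * (P c).Λ₀ s with hΛ'
  have hΛd : Differentiable ℂ Λ' := by
    rw [hΛ']
    exact Differentiable.fun_sum fun c _ => (hpd c).mul ((P c).differentiable_Λ₀)
  refine ⟨fun s => Λ' s - dslope A 0 s + dslope B 1 s,
    (hΛd.sub (hsl A 0 hAd)).add (hsl B 1 hBd), fun s hs => ?_⟩
  rw [← hLK s hs]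
  have hs0 : s ≠ 0 := by
    rintro rfl
    simp at hs
    linarith
  have hs1 : s ≠ 1 := by
    rintro rfl
    simp at hs
  have hs1' : (1 - s) ≠ 0 := sub_ne_zero.2 hs1.symm
  have hs1'' : (s - 1) ≠ 0 := sub_ne_zero.2 hs1
  change Λ' s - dslope A 0 s + dslope B 1 s = LK N P s
  rw [dslope_of_ne A hs0, dslope_of_ne B hs1, slope_def_field, slope_def_field, hA1, hB1,
    sub_zero, sub_zero, sub_zero]
  have h : LK N P s = ∑ c, (((N c : ℝ) : ℂ) ^ s * (P c).Λ₀ s - ((N c : ℝ) : ℂ) ^ s *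
      (P c).f₀ / s + ((N c : ℝ) : ℂ) ^ s * ((P c).ε * (P c).g₀) / (s - 1)) := by
    unfold LK
    refine Finset.sum_congr rfl fun c _ => ?_
    have h6 : (P c).Λ s = (P c).Λ₀ s - (1 / s) • (P c).f₀ -
      ((P c).ε / ((P c).k - s)) • (P c).g₀ := rfl
    rw [h6, hPk, smul_eq_mul, smul_eq_mul, ofReal_one]
    field_simp
    ring
  rw [h, Finset.sum_add_distrib, Finset.sum_sub_distrib, ← Finset.sum_div, ← Finset.sum_div]

end

/-- the analytic part: from the entire function to the functional equation -/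
theorem enf_of {K : Type} [Field K] [NumberField K] [IsTotallyComplex K] (χ : RCC K)
    (L : ℂ → ℂ) (hL : Differentiable ℂ L)
    (hL1 : ∀ s : ℂ, 1 < s.re → L s = cK K * gS χ s * Lc χ s) : EnF χ := by
  have hNf : (0 : ℝ) < (Ideal.absNorm χ.f : ℝ) := by
    have : Ideal.absNorm χ.f ≠ 0 := by
      rw [Ne, Ideal.absNorm_eq_zero_iff]
      exact χ.f_ne
    positivity
  have hd0 : 0 < |(discr K : ℝ)| := abs_pos.2 (by exact_mod_cast discr_ne_zero K)
  have hD : 0 < Dc χ := mul_pos hd0 hNf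
  have hcK := cK_ne K
  have hZd : Differentiable ℂ (Zc χ L) := by
    have h : Zc χ L = fun s => (cK K)⁻¹ * (gS χ s)⁻¹ * L s := rfl
    rw [h]
    exact ((gS_inv_diff χ).const_mul _).mul hL
  have hZ1 : ∀ s : ℂ, 1 < s.re → Zc χ L s = Lc χ s :=
    (IsZc_Zc χ L (fun s _ => hL s) hL1).2
  set Λ : ℂ → ℂ := fun s => ((Dc χ : ℝ) : ℂ) ^ (s / 2) * (cK K)⁻¹ * L s with hΛ
  have hΛd : Differentiable ℂ Λ := by
    intro s
    refine ((DifferentiableAt.const_cpow (by fun_prop) (Or.inl ?_)).mul_const _).mul (hL s)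
    exact_mod_cast hD.ne'
  have hcomp : ∀ s : ℂ, s.im ≠ 0 → compc χ (Zc χ L) s = Λ s := fun s hs => compc_Zc χ L hs
  obtain ⟨Z₁, Z₂, ε, ⟨hZ11, hZ12⟩, ⟨hZ21, hZ22⟩, hε, hfe, hbd⟩ := T_HEc_proved K χ
  have e1 : ∀ s : ℂ, s.im ≠ 0 → Z₁ s = Zc χ L s :=
    eq_off hZ11 hZd fun s hs => by rw [hZ12 s hs, hZ1 s hs]
  have e2 : ∀ s : ℂ, s.im ≠ 0 → Z₂ s = cj (Zc χ L) s :=
    eq_off hZ21 (cj_diff hZd) fun s hs => by rw [hZ22 s hs, cj_eq χ hZ1 s hs]
  have hc1 : ∀ s : ℂ, s.im ≠ 0 → compc χ Z₁ s = Λ s := by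
    intro s hs
    rw [← hcomp s hs]
    unfold compc
    rw [e1 s hs]
  have hc2 : ∀ s : ℂ, s.im ≠ 0 → compc χ.bar Z₂ s = cj Λ s := by
    intro s hs
    have hs' : ((starRingEnd ℂ) s).im ≠ 0 := by
      rw [conj_im]
      exact neg_ne_zero.2 hs
    unfold cj
    rw [← hcomp _ hs']
    unfold compc
    rw [e2 s hs, map_mul, map_mul, gS_conj, Complex.conj_conj, gS_bar]
    have h1 : (starRingEnd ℂ) s / 2 = (starRingEnd ℂ) (s / 2) := by
      rw [map_div₀, map_ofNat]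
    have h2 : |(discr K : ℝ)| * (Ideal.absNorm χ.f : ℝ) = Dc χ := rfl
    have h3 : |(discr K : ℝ)| * (Ideal.absNorm χ.bar.f : ℝ) = Dc χ := rfl
    rw [h1, h2, h3, cpow_conj_real hD]
    rfl
  have hfun : ∀ s : ℂ, Λ s = ε * cj Λ (1 - s) := by
    have key : ∀ s ∈ {s : ℂ | s.im ≠ 0}, Λ s = ε * cj Λ (1 - s) := by
      intro s hs
      have hs0 : s.im ≠ 0 := hs
      have hs' : (1 - s).im ≠ 0 := by simpa using hs0
      rw [← hc1 s hs0, ← hc2 _ hs']
      exact hfe s hs0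
    have h4 := Continuous.ext_on dense_im hΛd.continuous
      (continuous_const.mul ((cj_diff hΛd).continuous.comp (continuous_const.sub continuous_id)))
      key
    exact fun s => congrFun h4 s
  refine ⟨Zc χ L, Λ, ε, ⟨hZd, hZ1⟩, hΛd, ?_, hε, ?_, ?_⟩
  · intro s hs
    have h1 := Gammaℂ_ne hs
    have h2 : Zc χ L s = (cK K)⁻¹ * (gS χ s)⁻¹ * L s := rfl
    have h3 : (cnd K χ.f : ℝ) = Dc χ := rfl
    rw [h2, en_gS, h3, hΛ]
    have h4 : Gammaℂ s ^ nrComplexPlaces K ≠ 0 := pow_ne_zero _ h1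
    field_simp
  · intro s
    rw [hfun s]
    unfold cj
    rw [map_sub, map_one]
  · intro b
    obtain ⟨C₁, hC₁⟩ := hbd b
    set Kc : Set ℂ := {s : ℂ | |s.re| ≤ b ∧ |s.im| ≤ 1} with hKc
    have hcomp' : IsCompact Kc := by
      have h1 : Kc = (Icc (-b) b) ×ℂ (Icc (-1) 1) := by
        ext s
        rw [hKc, mem_reProdIm]
        simp only [mem_ofPred_eq, mem_Icc, abs_le]
      rw [h1]
      exact isCompact_Icc.reProdIm isCompact_Icc
    obtain ⟨C₂, hC₂⟩ := hcomp'.exists_bound_of_continuousOn hΛd.continuous.continuousOn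
    refine ⟨max C₁ C₂, fun s hs => ?_⟩
    rcases le_total |s.im| 1 with h | h
    · exact (hC₂ s ⟨hs, h⟩).trans (le_max_right _ _)
    · have hs0 : s.im ≠ 0 := by
        intro h0
        rw [h0, abs_zero] at h
        linarith
      rw [← hc1 s hs0]
      exact (hC₁ s hs h).1.trans (le_max_left _ _)

/-- the characters which are not invariant are not trivial -/
theorem notinv_ne {K : Type} [Field K] [NumberField K] (χ : RCC K) (h : NotInv χ) :
    ∃ J : Ideal (𝓞 K), J ≠ ⊥ ∧ χ.ψ J ≠ 1 := by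
  obtain ⟨σ, I, hI⟩ := h
  have hI0 : I ≠ ⊥ := by
    rintro rfl
    rw [Ideal.map_bot] at hI
    exact hI rfl
  by_cases h1 : χ.ψ I = 1
  · refine ⟨I.map σ, ?_, fun h2 => hI (by rw [h1, h2])⟩
    intro h2
    rw [Ideal.map_eq_bot_iff_of_injective σ.injective] at h2
    exact hI0 h2
  · exact ⟨I, hI0, h1⟩

theorem pf_ENA (h1 : T_NRM) : T_ENA := by
  intro K _ _ _ χ hχ
  have : IsTotallyComplex K := (h1 K).1
  by_cases hf : χ.f = ⊤
  · have h2 : NotInv χ := by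
      rcases hχ with h3 | h3
      · exact absurd hf h3
      · exact h3
    obtain ⟨J, hJ, hψ⟩ := notinv_ne χ h2
    obtain ⟨L, hL, hL1⟩ := ena_entire χ hf hJ hψ
    exact enf_of χ L hL hL1
  · exact a_EN K χ hf

end Pool.Agent.H33.CZF
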