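import Pool.Agent.H65.CZF.TA
import Pool.Agent.H65.CRG.TL
import Pool.Agent.H65.CRZ.TL
import Pool.Agent.H36.CRG.IN
import Pool.Agent.H86.HC.LEC

/-!
# Critical zeros of the complete family: mean squares of the auxiliary function (module INM)
-/

set_option autoImplicit false

open NumberField NumberField.InfinitePlace Complex Filter Topology MeasureTheory

namespace Pool.Agent.H33.CZF

open Pool.Agent.H28.RC Pool.Agent.H37.CV Pool.Agent.H33.HH Pool.Agent.H33.HC Pool.Agent.H65.CZF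
open Pool.Agent.H65.CRZ (Zx cA)
open Pool.Agent.H65.CRG (LFg VQ qm pm)

/-- the total weight of the family -/
theorem fw_one (hNRM : T_NRM) (hIEX : T_IEX) (hNPR : T_NPR) (hPHM : T_PHM) (hCNT : T_CNT)
    (K : Type) [Field K] [NumberField K] [IQ K] (P : ℝ) (W : ℝ → ℝ) (k : Ideal (𝓞 K))
    (hW : IsW W) (hk : Sm' P k) : ∃ C Q₀ : ℝ, 0 ≤ C ∧ 1 ≤ Q₀ ∧ ∀ Q : ℝ, Q₀ ≤ Q →
    FW P Q W k (fun _ => 1) ≤ C * Q ^ 2 := by
  obtain ⟨CN, hCN, hNP⟩ := hNPR K
  obtain ⟨CC, hCC, hCN'⟩ := hCNT K P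
  obtain ⟨w₀, hw₀, hlow⟩ := hW.low
  have hk1 := Pool.Agent.H86.HC.nm_ge hk.1
  have hH0 : 0 ≤ hc K / wu K := by
    unfold hc wu
    positivity
  have hrk : 0 ≤ rk K P := Pool.Agent.H86.HC.rk_nn P
  refine ⟨2 * ((rk K P + CC) * (CN + hc K / wu K * nm k)), max 1 (2 / w₀), by positivity,
    le_max_left _ _, fun Q hQ => ?_⟩
  have hQ1 : 1 ≤ Q := (le_max_left _ _).trans hQ
  have hQd : 2 / w₀ ≤ Q := (le_max_right _ _).trans hQ
  have hQ0 : 0 < Q := by linarith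
  have hW0 : W (1 / Q) = 0 := by
    refine hlow _ ?_
    rw [div_le_iff₀ hQ0]
    rw [div_le_iff₀ hw₀] at hQd
    linarith
  have hM : ∀ q : Ideal (𝓞 K), q ≠ ⊥ → nm q ≤ Q → k * q ≠ ⊤ →
      ((Pr K (k * q)).ncard : ℝ) ≤ (CN + hc K / wu K * nm k) * Q := by
    intro q hq0 hqQ hkq
    have hkq0 : k * q ≠ ⊥ := mul_ne_zero hk.1 hq0
    have g8 := (abs_le.1 (hNP (k * q) hkq0 hkq)).2
    have g9 : phs (k * q) ≤ nm k * Q := by
      refine (((hPHM K).2.2 (k * q) hkq0).2.1.trans Pool.Agent.H86.HC.ph_le).trans ?_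
      rw [Pool.Agent.H86.HC.nmm]
      exact mul_le_mul_of_nonneg_left hqQ (by linarith)
    have g10 := mul_le_mul_of_nonneg_left g9 hH0
    have g11 : CN ≤ CN * Q := le_mul_of_one_le_right hCN hQ1
    have g12 : (CN + hc K / wu K * nm k) * Q = CN * Q + hc K / wu K * (nm k * Q) := by ring
    rw [g12]
    linarith
  have hC' : ({I : Ideal (𝓞 K) | I ≠ ⊥ ∧ Cp P I ∧ nm I ≤ Q}.ncard : ℝ) ≤
      (rk K P + CC) * Q := by
    have g13 := (abs_le.1 (hCN' Q hQ1)).2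
    have g14 : Q ^ (3 / 4 : ℝ) ≤ Q := by
      calc Q ^ (3 / 4 : ℝ) ≤ Q ^ (1 : ℝ) :=
            Real.rpow_le_rpow_of_exponent_le hQ1 (by norm_num)
        _ = Q := Real.rpow_one _
    have g15 := mul_le_mul_of_nonneg_left g14 hCC
    linarith
  have hM0 : 0 ≤ (CN + hc K / wu K * nm k) * Q := by positivity
  have hsp := Pool.Agent.H86.HC.FW_split (K := K) hNRM hIEX (P := P) hQ0 hW hW0 hk.1
    (fun _ => 1) (fun _ => 0) (E := 1) (η := 1) one_pos hM0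
    (fun χ _ _ => by simp) hM hC'
  have h0 : FW P Q W k (fun _ : RCC K => ‖(0 : ℂ)‖ ^ 2) = 0 := by
    unfold FW
    have h1 : ∀ q : Ideal (𝓞 K), W (nm q / Q) * ∑ᶠ χ ∈ Pr K (k * q), ‖(0 : ℂ)‖ ^ 2 = 0 := by
      intro q
      rw [norm_zero, zero_pow two_ne_zero]
      simp
    simp only [h1]
    unfold sumC
    simp
  have h1 : FW P Q W k (fun _ : RCC K => ‖(1 : ℂ)‖ ^ 2) = FW P Q W k (fun _ => 1) := by
    rw [norm_one, one_pow]
  rw [h0, h1] at hsp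
  refine hsp.trans (le_of_eq ?_)
  ring

section

variable {K : Type} [Field K] [NumberField K]

/-- the mollifier is bounded -/
theorem inm_ml (P y : ℝ) (ψ : Ideal (𝓞 K) → ℂ) (s : ℂ) (hs : 0 ≤ s.re) :
    ‖mlz P y ψ s‖ ≤ ∑ S ∈ DP K P y, ‖(lm K P y S : ℂ) * ψ (idS S)‖ := by
  unfold mlz
  refine (norm_sum_le _ _).trans (Finset.sum_le_sum fun S _ => ?_)
  rw [norm_mul, norm_cpow_eq_rpow_re_of_pos (Pool.Agent.H96.CV.nS_pos S)]
  have h1 : (nS np S) ^ (-s).re ≤ 1 := by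
    apply Real.rpow_le_one_of_one_le_of_nonpos (Pool.Agent.H96.CV.one_le_nS S)
    rw [Complex.neg_re]
    linarith
  calc ‖(lm K P y S : ℂ) * ψ (idS S)‖ * (nS np S) ^ (-s).re ≤
      ‖(lm K P y S : ℂ) * ψ (idS S)‖ * 1 := mul_le_mul_of_nonneg_left h1 (norm_nonneg _)
    _ = _ := mul_one _

/-- combination of derivatives, with coefficients which depend on the index -/
theorem inm_comb {ι : Type*} [Fintype ι] (n : ℕ) (k : ℕ → ι → ℂ) (κ : ℕ → ℝ)
    (y : ℕ → ι → ℂ) (X : ℕ → ℝ) (hk : ∀ j < n, ∀ i, ‖k j i‖ ≤ κ j)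
    (hy : ∀ j < n, ∑ i, ‖y j i‖ ^ 2 ≤ X j) :
    ∑ i, ‖∑ j ∈ Finset.range n, k j i * y j i‖ ^ 2 ≤
      n * ∑ j ∈ Finset.range n, κ j ^ 2 * X j := by
  have h1 : ∀ i ∈ (Finset.univ : Finset ι), ‖∑ j ∈ Finset.range n, k j i * y j i‖ ^ 2 ≤
      n * ∑ j ∈ Finset.range n, κ j ^ 2 * ‖y j i‖ ^ 2 := by
    intro i _
    have h2 : ‖∑ j ∈ Finset.range n, k j i * y j i‖ ≤
        ∑ j ∈ Finset.range n, κ j * ‖y j i‖ := by
      refine (norm_sum_le _ _).trans (Finset.sum_le_sum fun j hj => ?_)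
      rw [norm_mul]
      exact mul_le_mul_of_nonneg_right (hk j (Finset.mem_range.1 hj) i) (norm_nonneg _)
    have h3 := pow_le_pow_left₀ (norm_nonneg _) h2 2
    have h4 : (∑ j ∈ Finset.range n, κ j * ‖y j i‖) ^ 2 ≤
        ((Finset.range n).card : ℝ) * ∑ j ∈ Finset.range n, (κ j * ‖y j i‖) ^ 2 :=
      sq_sum_le_card_mul_sum_sq
    rw [Finset.card_range] at h4
    simp only [mul_pow] at h4
    exact h3.trans h4
  refine (Finset.sum_le_sum h1).trans ?_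
  rw [← Finset.mul_sum, Finset.sum_comm]
  refine mul_le_mul_of_nonneg_left ?_ (Nat.cast_nonneg _)
  refine Finset.sum_le_sum fun j hj => ?_
  rw [← Finset.mul_sum]
  exact mul_le_mul_of_nonneg_left (hy j (Finset.mem_range.1 hj)) (sq_nonneg _)

theorem sqrt_sq_norm {w : ℝ} (hw : 0 ≤ w) (z : ℂ) :
    ‖((Real.sqrt w : ℝ) : ℂ) * z‖ ^ 2 = w * ‖z‖ ^ 2 := by
  rw [norm_mul, mul_pow, Complex.norm_real, Real.norm_eq_abs, sq_abs, Real.sq_sqrt hw]

/-- the mean square of the shifted products between the left line and the line `Re s = 4` -/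
theorem inm_strip {ι : Type} [Fintype ι] (w : ι → ℝ) (X : ι → RCC K) (hw : ∀ i, 0 ≤ w i)
    (P y δ σ₀ ρ C₁ B₁ K₀ CL C₂ T V : ℝ) (hB₁ : 0 ≤ B₁) (hC₁ : 0 < C₁) (hC₂ : 1 ≤ C₂)
    (hT : 0 < T) (hV : 0 ≤ V) (hσ : σ₀ = 1 / 2 - δ) (hδ0 : 0 ≤ δ) (hδ : δ ≤ 1 / 8)
    (hρ : ρ ≤ 1 / 2)
    (hMS : ∀ (a : ℂ) (u : ℝ), ‖a‖ ≤ ρ →
      ∑ i, w i * ‖Zx (X i) (σ₀ + u * I + a) * mlz P y (X i).ψ (1 / 2 + u * I)‖ ^ 2 ≤
        (C₁ + 1 / (1 + T) ^ B₁ * (1 + |u|) ^ B₁) * V)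
    (hTL : ∀ (ι : Type) [Fintype ι] (f : ι → ℂ → ℂ)
      (a b t M : ℝ), a < b → b - a ≤ 4 →
      (∀ i, ∀ s : ℂ, a ≤ s.re → s.re ≤ b → DifferentiableAt ℂ (f i) s) →
      (∀ i, ∃ C B : ℝ, ∀ s : ℂ, a ≤ s.re → s.re ≤ b → ‖f i s‖ ≤ C * (1 + |s.im|) ^ B) →
      (∀ u : ℝ, ∑ i, ‖f i (a + u * I)‖ ^ 2 ≤ M * (1 + |u - t|) ^ B₁) →
      (∀ u : ℝ, ∑ i, ‖f i (b + u * I)‖ ^ 2 ≤ M * (1 + |u - t|) ^ B₁) →
      ∀ σ : ℝ, a ≤ σ → σ ≤ b → ∑ i, ‖f i (σ + t * I)‖ ^ 2 ≤ K₀ * M)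
    (hLF : ∀ i, IsEnt (X i) (Zx (X i)) ∧ LFg 1 CL (cA K (X i).f) (Zx (X i)))
    (hCL : 1 ≤ CL) (hA0 : ∀ i, 0 < cA K (X i).f)
    (hL : ∀ (χ : RCC K) (s : ℂ), 3 / 2 ≤ s.re → ‖Lc χ s‖ ≤ C₂)
    (hML : ∀ (i : ι) (s : ℂ), 3 / 2 ≤ s.re → ‖mlz P y (X i).ψ s‖ ≤ 1 + C₂)
    (hmd : ∀ i, Differentiable ℂ fun z => mlz P y (X i).ψ z)
    (a : ℂ) (ha : ‖a‖ ≤ ρ) (x t : ℝ) (hx1 : σ₀ ≤ x) (hx2 : x ≤ 4) (ht : |t| ≤ T) :
    ∑ i, w i * ‖Zx (X i) (x + t * I + a) * mlz P y (X i).ψ (x + t * I + (δ : ℂ))‖ ^ 2 ≤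
      K₀ * ((C₁ + 1) * V + (C₂ * (1 + C₂)) ^ 2 * ∑ i, w i) := by
  obtain ⟨M, hM⟩ : ∃ M : ℝ, M = (C₁ + 1) * V + (C₂ * (1 + C₂)) ^ 2 * ∑ i, w i := ⟨_, rfl⟩
  rw [← hM]
  have hw0 : 0 ≤ ∑ i, w i := Finset.sum_nonneg fun i _ => hw i
  have hM1 : (C₁ + 1) * V ≤ M := by
    rw [hM]
    have : 0 ≤ (C₂ * (1 + C₂)) ^ 2 * ∑ i, w i := by positivity
    linarith
  have hM2 : (C₂ * (1 + C₂)) ^ 2 * ∑ i, w i ≤ M := by
    rw [hM]
    have : 0 ≤ (C₁ + 1) * V := by positivity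
    linarith
  have hM0 : 0 ≤ M := le_trans (by positivity) hM2
  have hare : |a.re| ≤ 1 / 2 := (Complex.abs_re_le_norm a).trans (ha.trans hρ)
  have haim : |a.im| ≤ 1 / 2 := (Complex.abs_im_le_norm a).trans (ha.trans hρ)
  have hare2 := abs_le.1 hare
  have h := hTL ι (fun i z => ((Real.sqrt (w i) : ℝ) : ℂ) *
    (Zx (X i) (z + a) * mlz P y (X i).ψ (z + (δ : ℂ))))
    σ₀ 4 t M (by linarith) (by linarith) ?_ ?_ ?_ ?_ x hx1 hx2
  · refine le_trans (le_of_eq ?_) h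
    refine Finset.sum_congr rfl fun i _ => ?_
    rw [sqrt_sq_norm (hw i)]
  · intro i s _ _
    have hZ : Differentiable ℂ (Zx (X i)) := (hLF i).2.diff
    exact (((hZ _).comp s (differentiableAt_id.add_const a)).mul
      ((hmd i _).comp s (differentiableAt_id.add_const (δ : ℂ)))).const_mul _
  · intro i
    refine ⟨Real.sqrt (w i) * ((3 * cA K (X i).f) ^ CL *
      ∑ S ∈ DP K P y, ‖(lm K P y S : ℂ) * (X i).ψ (idS S)‖), CL, ?_⟩
    intro s hs1 hs2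
    have hre : (s + (δ : ℂ)).re = s.re + δ := by simp
    have h1 := (hLF i).2.bd (s + a) (by
      rw [Complex.add_re]
      linarith)
    have h2 := inm_ml P y (X i).ψ (s + (δ : ℂ)) (by rw [hre]; linarith)
    have h3 : (cA K (X i).f * (2 + |(s + a).im|)) ^ CL ≤
        (3 * cA K (X i).f) ^ CL * (1 + |s.im|) ^ CL := by
      have hA := hA0 i
      rw [← Real.mul_rpow (by positivity) (by positivity)]
      apply Real.rpow_le_rpow (by positivity) _ (by linarith)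
      have h4 : |(s + a).im| ≤ |s.im| + 1 / 2 := by
        rw [Complex.add_im]
        exact (abs_add_le _ _).trans (by linarith)
      have h5 := abs_nonneg s.im
      have h6 : 2 + |(s + a).im| ≤ 3 * (1 + |s.im|) := by linarith
      calc cA K (X i).f * (2 + |(s + a).im|) ≤ cA K (X i).f * (3 * (1 + |s.im|)) :=
            mul_le_mul_of_nonneg_left h6 hA.le
        _ = _ := by ring
    rw [norm_mul, norm_mul, Complex.norm_real, Real.norm_eq_abs, abs_of_nonneg (Real.sqrt_nonneg _)]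
    have hA := hA0 i
    have h7 := mul_le_mul (h1.trans h3) h2 (norm_nonneg _) (by positivity)
    have h8 := mul_le_mul_of_nonneg_left h7 (Real.sqrt_nonneg (w i))
    refine h8.trans (le_of_eq ?_)
    ring
  · intro u
    have h1 := hMS a u ha
    have h0 : ∑ i, ‖((Real.sqrt (w i) : ℝ) : ℂ) * (Zx (X i) ((σ₀ : ℂ) + u * I + a) *
        mlz P y (X i).ψ ((σ₀ : ℂ) + u * I + (δ : ℂ)))‖ ^ 2 =
        ∑ i, w i * ‖Zx (X i) (σ₀ + u * I + a) * mlz P y (X i).ψ (1 / 2 + u * I)‖ ^ 2 := by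
      refine Finset.sum_congr rfl fun i _ => ?_
      have e0 : (σ₀ : ℂ) + u * I + (δ : ℂ) = 1 / 2 + u * I := by
        rw [hσ]
        push_cast
        ring
      rw [sqrt_sq_norm (hw i), e0]
    rw [h0]
    refine h1.trans ?_
    have h2 : (1 + |u|) ≤ (1 + T) * (1 + |u - t|) := by
      have h3 : |u| ≤ |t| + |u - t| := by
        have := abs_add_le t (u - t)
        rwa [add_sub_cancel] at this
      have h4 := abs_nonneg (u - t)
      have h5 : 0 ≤ T * |u - t| := mul_nonneg hT.le h4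
      linarith
    have h3 : (1 + |u|) ^ B₁ ≤ (1 + T) ^ B₁ * (1 + |u - t|) ^ B₁ := by
      have h4 := abs_nonneg (u - t)
      have h5 := abs_nonneg u
      rw [← Real.mul_rpow (by linarith) (by linarith)]
      exact Real.rpow_le_rpow (by linarith) h2 hB₁
    have h4 : 1 / (1 + T) ^ B₁ * (1 + |u|) ^ B₁ ≤ (1 + |u - t|) ^ B₁ := by
      have h5 : 0 < (1 + T) ^ B₁ := Real.rpow_pos_of_pos (by linarith) _
      rw [one_div, inv_mul_le_iff₀ h5]
      exact h3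
    have h5 : 1 ≤ (1 + |u - t|) ^ B₁ :=
      Real.one_le_rpow (by have := abs_nonneg (u - t); linarith) hB₁
    have h6 : C₁ * 1 ≤ C₁ * (1 + |u - t|) ^ B₁ := mul_le_mul_of_nonneg_left h5 hC₁.le
    calc (C₁ + 1 / (1 + T) ^ B₁ * (1 + |u|) ^ B₁) * V ≤
        ((C₁ + 1) * (1 + |u - t|) ^ B₁) * V := by
          apply mul_le_mul_of_nonneg_right _ hV
          linarith
      _ = ((C₁ + 1) * V) * (1 + |u - t|) ^ B₁ := by ring
      _ ≤ M * (1 + |u - t|) ^ B₁ := mul_le_mul_of_nonneg_right hM1 (by linarith)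
  · intro u
    have h5 : 1 ≤ (1 + |u - t|) ^ B₁ :=
      Real.one_le_rpow (by have := abs_nonneg (u - t); linarith) hB₁
    have h1 : ∀ i, ‖((Real.sqrt (w i) : ℝ) : ℂ) * (Zx (X i) (((4 : ℝ) : ℂ) + u * I + a) *
        mlz P y (X i).ψ (((4 : ℝ) : ℂ) + u * I + (δ : ℂ)))‖ ^ 2 ≤
        w i * (C₂ * (1 + C₂)) ^ 2 := by
      intro i
      have hre1 : (((4 : ℝ) : ℂ) + u * I + (δ : ℂ)).re = 4 + δ := by simp
      have hre2 : (((4 : ℝ) : ℂ) + u * I + a).re = 4 + a.re := by simp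
      have hE := (hLF i).1
      rw [sqrt_sq_norm (hw i), norm_mul, hE.2 _ (by rw [hre2]; linarith)]
      refine mul_le_mul_of_nonneg_left ?_ (hw i)
      refine pow_le_pow_left₀ (by positivity) ?_ 2
      exact mul_le_mul (hL (X i) _ (by rw [hre2]; linarith))
        (hML i _ (by rw [hre1]; linarith)) (norm_nonneg _) (by linarith)
    calc ∑ i, ‖((Real.sqrt (w i) : ℝ) : ℂ) * (Zx (X i) (((4 : ℝ) : ℂ) + u * I + a) *
          mlz P y (X i).ψ (((4 : ℝ) : ℂ) + u * I + (δ : ℂ)))‖ ^ 2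
        ≤ ∑ i, w i * (C₂ * (1 + C₂)) ^ 2 := Finset.sum_le_sum fun i _ => h1 i
      _ = (C₂ * (1 + C₂)) ^ 2 * ∑ i, w i := by rw [← Finset.sum_mul, mul_comm]
      _ ≤ M * 1 := by rw [mul_one]; exact hM2
      _ ≤ M * (1 + |u - t|) ^ B₁ := mul_le_mul_of_nonneg_left h5 hM0

end

theorem pf_INM (h1 : T_MSF) (h2 : Pool.Agent.H65.CRZ.T_TL) (h3 : T_LFU) (h4 : T_FBF)
    (h5 : T_H2U) (h6 : T_H2P) (h7 : Pool.Agent.H65.CRG.T_TR) (h8 : T_LGF) (h9 : T_EPB)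
    (h10 : T_FAM) (h11 : T_ENA) (h12 : T_NRM) (h13 : T_IEX) (h14 : T_NPR) (h15 : T_PHM)
    (h16 : T_CNT) : T_INM := by
  intro K _ _ _ P W k θ e R N m hSP hW hW1 hk hPar hR hm
  have hθ := hPar.θpos
  obtain ⟨C₁, B₁, hC₁, hB₁, hMS⟩ := h1 K P W k θ e R hSP hW hW1 hk hPar hR
  obtain ⟨K₀, hK₀, hTL⟩ := h2 B₁ 4 hB₁ (by norm_num)
  obtain ⟨CL, A₁, hCL, hA₁, hLF⟩ := h3
  obtain ⟨κ₁, Q₁, hκ₁, hQ₁, hFAM⟩ := h10 K P W k hW hk
  have hk1 : 1 ≤ nm k := Pool.Agent.H86.HC.nm_ge hk.1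
  have hk0 : 0 < nm k := by linarith
  obtain ⟨C₃, b₀, hC₃, hb₀, hFB⟩ := h4 K P N m θ R κ₁ (nm k) hm hR hθ hκ₁ hk0
  obtain ⟨CU, hCU, hL⟩ := h5
  obtain ⟨CP', hCP, hP2⟩ := h6 K P
  obtain ⟨c, -, hcV, hcB⟩ := h7 1 N m hm
  obtain ⟨CG, hCG, hLG⟩ := h8 K κ₁ (nm k) hκ₁ hk0
  obtain ⟨cE, CE, hcE, hCE, hEP⟩ := h9 K P
  obtain ⟨CW, QW, hCW, hQW, hFW⟩ := fw_one h12 h13 h14 h15 h16 K P W k hW hk
  obtain ⟨C₂, hC₂d⟩ : ∃ C₂ : ℝ, C₂ = max CU CP' := ⟨_, rfl⟩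
  have hC₂ : 1 ≤ C₂ := by
    rw [hC₂d]
    exact hCU.trans (le_max_left _ _)
  obtain ⟨κ, hκ⟩ : ∃ κ : ℕ → ℝ, κ = fun j => |qm N m j| + 1 := ⟨_, rfl⟩
  obtain ⟨D, hD⟩ : ∃ D : ℝ, D = ((2 * N + 1 : ℕ) : ℝ) * ∑ j ∈ Finset.range (2 * N + 1),
      κ j ^ 2 * ((j.factorial : ℝ) * (4 / R) ^ j) ^ 2 := ⟨_, rfl⟩
  have hD0 : 0 ≤ D := by
    rw [hD]
    exact mul_nonneg (Nat.cast_nonneg _) (Finset.sum_nonneg fun j _ => by positivity)
  obtain ⟨E, hE⟩ : ∃ E : ℝ, E = (C₁ + 1) + (C₂ * (1 + C₂)) ^ 2 * CW := ⟨_, rfl⟩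
  have hE0 : 0 ≤ E := by
    rw [hE]
    positivity
  have hDE : 0 ≤ CE ^ 2 * (D * (K₀ * E)) := by positivity
  have hCW3 : 0 ≤ C₃ ^ 2 * CW := by positivity
  refine ⟨1 + CE ^ 2 * (D * (K₀ * E)) + C₃ ^ 2 * CW, b₀, by linarith, hb₀, ?_⟩
  intro b T hb hT
  obtain ⟨B, hB, hBc⟩ := hcB 4 T
  have hTB : 0 < (1 + T) ^ B₁ := Real.rpow_pos_of_pos (by linarith) _
  obtain ⟨q₁, hq₁2, hq₁⟩ := hMS (1 / (1 + T) ^ B₁) (by positivity)
  obtain ⟨q₂, hq₂2, hq₂⟩ := hFB b (T + 1) hb (by linarith)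
  obtain ⟨l₀, hl₀⟩ : ∃ l₀ : ℝ, l₀ = 2 * CG + 8 * R + 2 * |Real.log A₁| + 4 * B + 8 := ⟨_, rfl⟩
  refine ⟨max (max q₁ q₂) (max (max Q₁ QW) (Real.exp l₀)),
    hq₁2.trans ((le_max_left _ _).trans (le_max_left _ _)), fun Q hQ x t hx1 hx2 ht => ?_⟩
  have hqa : q₁ ≤ Q := le_trans (le_trans (le_max_left _ _) (le_max_left _ _)) hQ
  have hqb : q₂ ≤ Q := le_trans (le_trans (le_max_right _ _) (le_max_left _ _)) hQ
  have hqc : Q₁ ≤ Q := le_trans (le_trans (le_trans (le_max_left _ _) (le_max_left _ _))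
    (le_max_right _ _)) hQ
  have hqd : QW ≤ Q := le_trans (le_trans (le_trans (le_max_right _ _) (le_max_left _ _))
    (le_max_right _ _)) hQ
  have hqe : Real.exp l₀ ≤ Q := le_trans (le_trans (le_max_right _ _) (le_max_right _ _)) hQ
  have hQ0 : 0 < Q := (Real.exp_pos _).trans_le hqe
  have hQ1 : 1 ≤ Q := hQ₁.trans hqc
  have hlog : l₀ ≤ Real.log Q := (Real.le_log_iff_exp_le hQ0).2 hqe
  have habs := abs_nonneg (Real.log A₁)
  have hL0 : 0 < Real.log Q := by linarith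
  have hδ : R / Real.log Q ≤ 1 / 8 := by
    rw [div_le_iff₀ hL0]
    linarith
  have hδ0 : 0 < R / Real.log Q := by positivity
  have hsl : sgm R Q = 1 / 2 - R / Real.log Q := rfl
  have hρ : R / (2 * Real.log Q) = R / Real.log Q / 2 := by
    field_simp
  have hρ0 : 0 < R / (2 * Real.log Q) := by positivity
  have hy : 1 ≤ Q ^ θ := Real.one_le_rpow hQ1 hθ.le
  obtain ⟨ι, hι, w, X, -, hX, hwM, hF⟩ := (hFAM Q hqc).2
  have hw : ∀ i, 0 ≤ w i := fun i => (hX i).1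
  have hsw : ∑ i, w i ≤ CW * Q ^ 2 := by
    have e1 := hF (fun _ => 1)
    simp only [mul_one] at e1
    rw [← e1]
    exact hFW Q hqd
  have hsw0 : 0 ≤ ∑ i, w i := Finset.sum_nonneg fun i _ => hw i
  -- the conductors
  have hlA : ∀ i, |2 * Real.log (cA K (X i).f) - Real.log Q| ≤ CG := fun i =>
    hLG Q (X i) hQ0 (hX i).2.2.2.1 (hX i).2.2.2.2.1
  have hcA0 : ∀ i, 0 < cA K (X i).f := by
    intro i
    have hf0 : (X i).f ≠ ⊥ := (X i).f_ne
    have e1 : 0 < nm (X i).f := by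
      have := Pool.Agent.H86.HC.nm_ge hf0
      linarith
    have e2 : 0 < |(discr K : ℝ)| := abs_pos.2 (by exact_mod_cast discr_ne_zero K)
    unfold cA cnd
    have := Real.pi_pos
    positivity
  have hlA2 : ∀ i, Real.log Q / 2 ≤ 2 * Real.log (cA K (X i).f) := by
    intro i
    have e1 := (abs_le.1 (hlA i)).1
    linarith
  have hAA₁ : ∀ i, A₁ ≤ cA K (X i).f := by
    intro i
    have e1 := hlA2 i
    have e2 := le_abs_self (Real.log A₁)
    have e3 : Real.log A₁ ≤ Real.log (cA K (X i).f) := by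
      have e4 := (abs_le.1 (hlA i)).1
      linarith
    exact (Real.log_le_log_iff (by linarith) (hcA0 i)).1 e3
  have hA2 : ∀ i, 2 ≤ cA K (X i).f := by
    intro i
    have e1 := (abs_le.1 (hlA i)).1
    have e2 : 1 ≤ Real.log (cA K (X i).f) := by linarith
    have a1 := Real.add_one_le_exp (Real.log (cA K (X i).f))
    rw [Real.exp_log (hcA0 i)] at a1
    linarith
  have hLFi : ∀ i, IsEnt (X i) (Zx (X i)) ∧ LFg 1 CL (cA K (X i).f) (Zx (X i)) := fun i =>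
    hLF K (X i) (h11 K (X i) (Or.inl (hX i).2.2.1)) (hAA₁ i)
  have hψ1 : ∀ (i : ι) (I : Ideal (𝓞 K)), ‖(X i).ψ I‖ ≤ 1 := fun i I => rcc_norm_le (X i) I
  have hEPi := fun i => hEP (X i).ψ (hψ1 i)
  rw [hF]
  rcases le_total x 4 with hx4 | hx4
  · -- between the lines
    have hML : ∀ (i : ι) (s : ℂ), 3 / 2 ≤ s.re → ‖mlz P (Q ^ θ) (X i).ψ s‖ ≤ 1 + C₂ := by
      intro i s hs
      have h8 := (hP2 (X i).ψ (hψ1 i) (X i).map_one s hs).2 (Q ^ θ) hy
      have hp1 : (2 : ℝ) ^ (-s.re) ≤ 1 :=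
        Real.rpow_le_one_of_one_le_of_nonpos one_le_two (by linarith)
      have hp0 : (0 : ℝ) < (2 : ℝ) ^ (-s.re) := Real.rpow_pos_of_pos two_pos _
      have h9 : mlz P (Q ^ θ) (X i).ψ s = 1 + (mlz P (Q ^ θ) (X i).ψ s - 1) := by
        ring
      have h10 : CP' ≤ C₂ := by
        rw [hC₂d]
        exact le_max_right _ _
      have h11 : CP' * (2 : ℝ) ^ (-s.re) ≤ C₂ * 1 :=
        mul_le_mul h10 hp1 hp0.le (by linarith)
      rw [h9]
      refine (norm_add_le _ _).trans ?_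
      rw [norm_one]
      linarith
    have hstrip : ∀ a : ℂ, ‖a‖ = R / (2 * Real.log Q) →
        ∑ i, ‖Zx (X i) ((x + t * I) + a) * (((Real.sqrt (w i) : ℝ) : ℂ) *
          mlz P (Q ^ θ) (X i).ψ (x + t * I + ((R / Real.log Q : ℝ) : ℂ)))‖ ^ 2 ≤
        K₀ * ((C₁ + 1) * Q ^ 2 + (C₂ * (1 + C₂)) ^ 2 * ∑ i, w i) := by
      intro a ha
      have e1 := inm_strip (K := K) w X hw P (Q ^ θ) (R / Real.log Q) (sgm R Q)
        (R / (2 * Real.log Q)) C₁ B₁ K₀ CL C₂ T (Q ^ 2) hB₁ hC₁ hC₂ hT (sq_nonneg _) hsl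
        hδ0.le hδ (by rw [hρ]; linarith) (fun a u ha => by
          have e2 := hq₁ Q hqa a u ha
          rw [hF] at e2
          exact e2) hTL hLFi hCL hcA0 (fun χ s hs => ((hL K χ s hs).1).trans (by
            rw [hC₂d]
            exact le_max_left _ _)) hML (fun i => (hEPi i).2.1 (Q ^ θ)) a ha.le x t hx1 hx4 ht
      refine le_trans (le_of_eq ?_) e1
      refine Finset.sum_congr rfl fun i _ => ?_
      rw [← sqrt_sq_norm (hw i)]
      congr 2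
      ring
    obtain ⟨M, hMdef⟩ : ∃ M : ℝ, M = K₀ * ((C₁ + 1) * Q ^ 2 +
          (C₂ * (1 + C₂)) ^ 2 * ∑ i, w i) := ⟨_, rfl⟩
    rw [← hMdef] at hstrip
    have hcau := fun j => Pool.Agent.H36.CRG.in_cauchy Finset.univ (fun i => Zx (X i))
      (fun i _ => (hLFi i).2.diff)
      (fun i => ((Real.sqrt (w i) : ℝ) : ℂ) *
        mlz P (Q ^ θ) (X i).ψ (x + t * I + ((R / Real.log Q : ℝ) : ℂ)))
      (x + t * I) hρ0 hstrip j
    have hre : ((x : ℂ) + t * I).re = x := by simp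
    have him : ((x : ℂ) + t * I).im = t := by simp
    have hcomb := inm_comb (ι := ι) (2 * N + 1)
      (fun j i => c (cA K (X i).f) j (x + t * I) /
        ((2 * Real.log (cA K (X i).f) : ℝ) : ℂ) ^ j)
      (fun j => κ j * (2 / Real.log Q) ^ j)
      (fun j i => iteratedDeriv j (Zx (X i)) (x + t * I) * (((Real.sqrt (w i) : ℝ) : ℂ) *
        mlz P (Q ^ θ) (X i).ψ (x + t * I + ((R / Real.log Q : ℝ) : ℂ))))
      (fun j => ((j.factorial : ℝ) / (R / (2 * Real.log Q)) ^ j) ^ 2 * M) ?_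
      (fun j _ => hcau j)
    · have e1 : ∀ i, w i * ‖fP P θ R Q N m (X i) (x + t * I)‖ ^ 2 ≤
          CE ^ 2 * ‖∑ j ∈ Finset.range (2 * N + 1),
            (c (cA K (X i).f) j (x + t * I) /
              ((2 * Real.log (cA K (X i).f) : ℝ) : ℂ) ^ j) *
              (iteratedDeriv j (Zx (X i)) (x + t * I) * (((Real.sqrt (w i) : ℝ) : ℂ) *
                mlz P (Q ^ θ) (X i).ψ (x + t * I + ((R / Real.log Q : ℝ) : ℂ))))‖ ^ 2 := by
        intro i
        have hZd := (hLFi i).2.diff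
        have h8 := (hcV (cA K (X i).f) (Zx (X i)) (x + t * I) (by linarith [hA2 i]) hZd (by
          rw [hre]
          rw [hsl] at hx1
          linarith)).2.2
        have e2 : ∑ j ∈ Finset.range (2 * N + 1),
            (c (cA K (X i).f) j (x + t * I) /
              ((2 * Real.log (cA K (X i).f) : ℝ) : ℂ) ^ j) *
              (iteratedDeriv j (Zx (X i)) (x + t * I) * (((Real.sqrt (w i) : ℝ) : ℂ) *
                mlz P (Q ^ θ) (X i).ψ (x + t * I + ((R / Real.log Q : ℝ) : ℂ)))) =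
            ((Real.sqrt (w i) : ℝ) : ℂ) * (VQ 1 N m (cA K (X i).f) (Zx (X i)) (x + t * I) *
              mlz P (Q ^ θ) (X i).ψ (x + t * I + ((R / Real.log Q : ℝ) : ℂ))) := by
          rw [h8, Finset.sum_mul, Finset.mul_sum]
          refine Finset.sum_congr rfl fun j _ => ?_
          ring
        rw [e2, sqrt_sq_norm (hw i)]
        have e3 := ((hEPi i).2.2 (x + t * I) (x + t * I) (by
          rw [hre]; rw [hsl] at hx1; linarith) (by
          rw [hre]; rw [hsl] at hx1; linarith)).2.1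
        have e4 : fP P θ R Q N m (X i) (x + t * I) = EP P (X i).ψ (x + t * I) *
            (VQ 1 N m (cA K (X i).f) (Zx (X i)) (x + t * I) *
              mlz P (Q ^ θ) (X i).ψ (x + t * I + ((R / Real.log Q : ℝ) : ℂ))) := by
          unfold fP
          ring
        rw [e4, norm_mul, mul_pow]
        have e5 := pow_le_pow_left₀ (norm_nonneg _) e3 2
        have e6 := mul_le_mul_of_nonneg_right e5 (sq_nonneg
          ‖VQ 1 N m (cA K (X i).f) (Zx (X i)) (x + t * I) *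
            mlz P (Q ^ θ) (X i).ψ (x + t * I + ((R / Real.log Q : ℝ) : ℂ))‖)
        have e7 := mul_le_mul_of_nonneg_left e6 (hw i)
        refine e7.trans (le_of_eq ?_)
        ring
      have e2 : ∑ i, w i * ‖fP P θ R Q N m (X i) (x + t * I)‖ ^ 2 ≤ CE ^ 2 * (D * M) := by
        refine (Finset.sum_le_sum fun i _ => e1 i).trans ?_
        rw [← Finset.mul_sum]
        refine mul_le_mul_of_nonneg_left ?_ (sq_nonneg _)
        refine hcomb.trans (le_of_eq ?_)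
        rw [hD, mul_assoc, Finset.sum_mul]
        congr 1
        refine Finset.sum_congr rfl fun j _ => ?_
        have e3 : κ j * (2 / Real.log Q) ^ j * ((j.factorial : ℝ) /
            (R / (2 * Real.log Q)) ^ j) = κ j * ((j.factorial : ℝ) * (4 / R) ^ j) := by
          have e4 : (4 / R : ℝ) = 2 / Real.log Q / (R / (2 * Real.log Q)) := by
            field_simp
            norm_num
          rw [e4, div_pow (2 / Real.log Q)]
          ring
        calc (κ j * (2 / Real.log Q) ^ j) ^ 2 *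
              (((j.factorial : ℝ) / (R / (2 * Real.log Q)) ^ j) ^ 2 * M) =
            (κ j * (2 / Real.log Q) ^ j * ((j.factorial : ℝ) /
              (R / (2 * Real.log Q)) ^ j)) ^ 2 * M := by ring
          _ = _ := by
            rw [e3]
            ring
      have e3 : M ≤ K₀ * (E * Q ^ 2) := by
        rw [hMdef]
        apply mul_le_mul_of_nonneg_left _ (by linarith)
        have h10 : (C₂ * (1 + C₂)) ^ 2 * ∑ i, w i ≤ (C₂ * (1 + C₂)) ^ 2 * (CW * Q ^ 2) :=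
          mul_le_mul_of_nonneg_left hsw (sq_nonneg _)
        have h11 : E * Q ^ 2 = (C₁ + 1) * Q ^ 2 + (C₂ * (1 + C₂)) ^ 2 * (CW * Q ^ 2) := by
          rw [hE]
          ring
        rw [h11]
        linarith
      calc ∑ i, w i * ‖fP P θ R Q N m (X i) (x + t * I)‖ ^ 2 ≤ CE ^ 2 * (D * M) := e2
        _ ≤ CE ^ 2 * (D * (K₀ * (E * Q ^ 2))) :=
          mul_le_mul_of_nonneg_left (mul_le_mul_of_nonneg_left e3 hD0) (sq_nonneg _)
        _ = (CE ^ 2 * (D * (K₀ * E))) * Q ^ 2 := by ring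
        _ ≤ (1 + CE ^ 2 * (D * (K₀ * E)) + C₃ ^ 2 * CW) * Q ^ 2 := by
          apply mul_le_mul_of_nonneg_right _ (sq_nonneg _)
          linarith
    · intro j _ i
      have hla := hlA2 i
      have hla0 : 0 < 2 * Real.log (cA K (X i).f) := by linarith
      rw [norm_div, norm_pow, Complex.norm_real, Real.norm_eq_abs, abs_of_pos hla0]
      have h8 := hBc (cA K (X i).f) j (x + t * I) (hA2 i)
        (by rw [hre]; rw [hsl] at hx1; linarith) (by rw [hre]; exact hx4)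
        (by rw [him]; exact ht)
      have h9 : B / Real.log (cA K (X i).f) ≤ 1 := by
        rw [div_le_one (by linarith)]
        have e1 := (abs_le.1 (hlA i)).1
        linarith
      have h10 : c (cA K (X i).f) j (x + t * I) =
          (qm N m j : ℂ) + (c (cA K (X i).f) j (x + t * I) - (qm N m j : ℂ)) := by
        ring
      have h11 : ‖c (cA K (X i).f) j (x + t * I)‖ ≤ κ j := by
        rw [h10, hκ]
        refine (norm_add_le _ _).trans ?_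
        rw [Complex.norm_real, Real.norm_eq_abs]
        dsimp only
        linarith
      have h12 : 1 / (2 * Real.log (cA K (X i).f)) ≤ 2 / Real.log Q := by
        rw [div_le_div_iff₀ hla0 hL0]
        linarith
      have h13 : (1 / (2 * Real.log (cA K (X i).f))) ^ j ≤ (2 / Real.log Q) ^ j :=
        pow_le_pow_left₀ (by positivity) h12 j
      have h14 : ‖c (cA K (X i).f) j (x + t * I)‖ / (2 * Real.log (cA K (X i).f)) ^ j =
          ‖c (cA K (X i).f) j (x + t * I)‖ * (1 / (2 * Real.log (cA K (X i).f))) ^ j := by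
        rw [one_div, inv_pow]
        rfl
      rw [h14]
      exact mul_le_mul h11 h13 (by positivity) ((norm_nonneg _).trans h11)
  · -- far to the right
    have h8 : ∀ i, w i * ‖fP P θ R Q N m (X i) (x + t * I)‖ ^ 2 ≤ w i * C₃ ^ 2 := by
      intro i
      have hre : ((x : ℂ) + t * I).re = x := by simp
      have him : ((x : ℂ) + t * I).im = t := by simp
      have h9 := (hq₂ Q hqb (X i) (hX i).2.2.1 (hX i).2.2.2.1 (hX i).2.2.2.2.1 (x + t * I)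
        (by rw [hre]; linarith) (by rw [hre]; linarith) (by rw [him]; linarith)).2.1
        (by rw [hre]; exact hx4)
      exact mul_le_mul_of_nonneg_left (pow_le_pow_left₀ (norm_nonneg _) h9 2) (hw i)
    refine (Finset.sum_le_sum fun i _ => h8 i).trans ?_
    rw [← Finset.sum_mul]
    have h9 := mul_le_mul_of_nonneg_left hsw (sq_nonneg C₃)
    have h10 : (1 + CE ^ 2 * (D * (K₀ * E)) + C₃ ^ 2 * CW) * Q ^ 2 =
        (1 + CE ^ 2 * (D * (K₀ * E))) * Q ^ 2 + C₃ ^ 2 * (CW * Q ^ 2) := by ring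
    have h11 : 0 ≤ (1 + CE ^ 2 * (D * (K₀ * E))) * Q ^ 2 := by positivity
    rw [h10]
    linarith

end Pool.Agent.H33.CZF
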